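import Mathlib
import Pool.Agent.Q179.BLT.Rep

/-!
# Shifts acting on frames of coherent states
-/

set_option autoImplicit false
set_option linter.unusedSectionVars false

open Filter Topology

namespace Pool.Agent.Q179.Gab

open Pool.Agent.Q179.BLT

variable {H : Type*} [NormedAddCommGroup H] [InnerProductSpace ℂ H]
variable {I : Type*} [DecidableEq I]

/-- The sequence space. -/
noncomputable abbrev l2 (I : Type*) := lp (fun _ : I => ℂ) 2

/-- The unit vectors. -/
noncomputable def dl (k : I) : l2 I := lp.single 2 k 1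

lemma dl_apply (k j : I) : dl k j = if j = k then 1 else 0 := by
  rw [dl, lp.single_apply, Pi.single_apply]

lemma inner_dl (k : I) (c : l2 I) : inner ℂ (dl k) c = c k := by
  rw [dl, lp.inner_single_left]; simp

lemma inner_dl' (k : I) (c : l2 I) : inner ℂ c (dl k) = (starRingEnd ℂ) (c k) := by
  rw [← inner_conj_symm, inner_dl]

lemma single_eq (k : I) (a : ℂ) : (lp.single 2 k a : l2 I) = a • dl k := by
  rw [dl, ← lp.single_smul]; simp

lemma hasSum_dl (c : l2 I) : HasSum (fun k => c k • dl k) c := by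
  have := lp.hasSum_single (E := fun _ : I => ℂ) (p := 2) (by simp) c
  simpa [single_eq] using this

lemma dl_orthonormal {s : I → I} (hs : Function.Injective s) :
    Orthonormal ℂ fun k => (dl (s k) : l2 I) := by
  rw [orthonormal_iff_ite]
  intro i j
  rw [inner_dl, dl_apply]
  simp only [hs.eq_iff]

/-- The shift `δ_k ↦ δ_{s k}`. -/
noncomputable def R (s : I → I) (hs : Function.Injective s) : l2 I →ₗᵢ[ℂ] l2 I :=
  (dl_orthonormal hs).orthogonalFamily.linearIsometry

lemma R_dl (s : I → I) (hs : Function.Injective s) (k : I) : R s hs (dl k) = dl (s k) := by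
  rw [R, dl, OrthogonalFamily.linearIsometry_apply_single]
  simp

lemma R_apply (s : I → I) (hs : Function.Injective s) (c : l2 I) (k : I) :
    R s hs c (s k) = c k := by
  rw [← inner_dl, ← R_dl s hs, (R s hs).inner_map_map, inner_dl]

lemma R_apply_zero (s : I → I) (hs : Function.Injective s) (c : l2 I) (j : I)
    (hj : ∀ k, s k ≠ j) : R s hs c j = 0 := by
  have h1 := (hasSum_dl c).mapL ((innerSL ℂ (dl j)).comp (R s hs).toContinuousLinearMap)
  have h2 : ∀ k, ((innerSL ℂ (dl j)).comp (R s hs).toContinuousLinearMap) (c k • dl k) = 0 := by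
    intro k
    simp only [ContinuousLinearMap.comp_apply, LinearIsometry.coe_toContinuousLinearMap, map_smul,
      R_dl, innerSL_apply_apply, inner_dl, dl_apply, smul_eq_mul]
    rw [if_neg (fun h => hj k h.symm), mul_zero]
  simp only [h2] at h1
  have h3 := h1.unique hasSum_zero
  simpa [inner_dl] using h3

section frame

variable [CompleteSpace H] {f : I → H} {B : ℝ} (hB : BB f B)

/-- The synthesis map. -/
noncomputable def syn : l2 I →L[ℂ] H := ContinuousLinearMap.adjoint (ana f B hB)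

lemma syn_inner (c : l2 I) (x : H) : inner ℂ (syn hB c) x = inner ℂ c (ana f B hB x) :=
  ContinuousLinearMap.adjoint_inner_left _ _ _

lemma syn_dl (k : I) : syn hB (dl k) = f k := by
  refine ext_inner_right ℂ fun x => ?_
  rw [syn_inner, inner_dl]
  rfl

lemma syn_hasSum (c : l2 I) : HasSum (fun k => c k • f k) (syn hB c) := by
  have := (hasSum_dl c).mapL (syn hB)
  simpa [syn_dl] using this

/-- The kernel of the synthesis map. -/
noncomputable def ker : Submodule ℂ (l2 I) := LinearMap.ker (syn hB : l2 I →ₗ[ℂ] H)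

lemma mem_ker (c : l2 I) : c ∈ ker hB ↔ syn hB c = 0 := by
  rw [ker, LinearMap.mem_ker]; rfl

lemma ker_closed : IsClosed (ker hB : Set (l2 I)) := (syn hB).isClosed_ker

instance ker_complete : CompleteSpace (ker hB) := (ker_closed hB).completeSpace_coe

/-- The projection of a unit vector to the kernel. -/
noncomputable def u (k : I) : l2 I := (ker hB).starProjection (dl k)

lemma u_mem (k : I) : u hB k ∈ ker hB := (ker hB).starProjection_apply_mem _

lemma inner_u (v : l2 I) (hv : v ∈ ker hB) (k : I) :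
    inner ℂ v (u hB k) = (starRingEnd ℂ) (v k) := by
  have h1 : dl k - u hB k ∈ (ker hB)ᗮ := (ker hB).sub_starProjection_mem_orthogonal _
  have h2 := (Submodule.mem_orthogonal (ker hB) _).1 h1 v hv
  rw [inner_sub_right, sub_eq_zero] at h2
  rw [← h2, inner_dl']

lemma u_symm (j k : I) : u hB k j = (starRingEnd ℂ) (u hB j k) := by
  have h1 := inner_u hB (u hB j) (u_mem hB j) k
  have h2 := inner_u hB (u hB k) (u_mem hB k) j
  rw [← h1, ← inner_conj_symm, h2, Complex.conj_conj]

lemma u_norm (k : I) : ((‖u hB k‖ ^ 2 : ℝ) : ℂ) = u hB k k := by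
  have h1 := inner_u hB (u hB k) (u_mem hB k) k
  rw [inner_self_eq_norm_sq_to_K] at h1
  have h2 := congrArg (starRingEnd ℂ) h1
  rw [Complex.conj_conj] at h2
  rw [← h2]
  simp

/-- The shift maps the projected unit vectors to each other. -/
lemma R_u (s : I → I) (hs : Function.Injective s) (hR : ∀ c ∈ ker hB, R s hs c ∈ ker hB)
    (κ : ℝ) (hκ : ∀ k, ‖u hB k‖ ^ 2 = κ) (k : I) : R s hs (u hB k) = u hB (s k) := by
  have h1 := inner_u hB (R s hs (u hB k)) (hR _ (u_mem hB k)) (s k)
  rw [R_apply, ← u_norm, hκ, Complex.conj_ofReal] at h1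
  have h2 : ‖R s hs (u hB k) - u hB (s k)‖ ^ 2 = 0 := by
    rw [@norm_sub_sq ℂ, h1, LinearIsometry.norm_map, hκ, hκ]
    simp
    ring
  exact sub_eq_zero.1 (norm_eq_zero.1 (pow_eq_zero_iff two_ne_zero |>.1 h2))

lemma ker_eq_bot_of (h : ∀ k, u hB k = 0) : ker hB = ⊥ := by
  rw [Submodule.eq_bot_iff]
  intro c hc
  ext k
  have := inner_u hB c hc k
  rw [h k, inner_zero_right] at this
  have h2 := congrArg (starRingEnd ℂ) this
  rw [Complex.conj_conj, map_zero] at h2
  rw [← h2]; rfl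

lemma u_single (k : I) (hk : f k ≠ 0) (h : ∀ j, j ≠ k → u hB k j = 0) : u hB k = 0 := by
  have h1 : u hB k = (u hB k k) • dl k := by
    ext j
    rw [lp.coeFn_smul, Pi.smul_apply, dl_apply, smul_eq_mul]
    split_ifs with hj
    · rw [hj, mul_one]
    · rw [mul_zero]; exact h j hj
  have h2 := (mem_ker hB _).1 (u_mem hB k)
  rw [h1, map_smul, syn_dl] at h2
  have h3 := (smul_eq_zero.1 h2).resolve_right hk
  rw [h1, h3, zero_smul]

/-- A bound for the operator on the span gives invariance of the kernel. -/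
lemma shift_ker (s : I → I) (hs : Function.Injective s) (C : ℝ)
    (hT : ∀ (t : Finset I) (a : I → ℂ), ‖∑ k ∈ t, a k • f (s k)‖ ≤ C * ‖∑ k ∈ t, a k • f k‖)
    (c : l2 I) (hc : c ∈ ker hB) : R s hs c ∈ ker hB := by
  have hcl : IsClosed {c : l2 I | ‖syn hB (R s hs c)‖ ≤ C * ‖syn hB c‖} :=
    isClosed_le (by fun_prop) (by fun_prop)
  have h1 : c ∈ {c : l2 I | ‖syn hB (R s hs c)‖ ≤ C * ‖syn hB c‖} := by
    refine hcl.mem_of_tendsto (hasSum_dl c) (Eventually.of_forall fun t => ?_)
    have := hT t (fun k => c k)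
    simpa [map_sum, R_dl, syn_dl] using this
  rw [mem_ker] at hc ⊢
  have h2 : ‖syn hB (R s hs c)‖ ≤ C * ‖syn hB c‖ := h1
  rw [hc, norm_zero, mul_zero] at h2
  exact norm_le_zero_iff.1 h2

/-- If the analysis map is bounded below, then the orthogonal complement of the kernel is its
range. -/
lemma exists_ana {A : ℝ} (hA : 0 < A) (hlow : ∀ x, A * ‖x‖ ^ 2 ≤ ‖ana f B hB x‖ ^ 2)
    (v : l2 I) (hv : v ∈ (ker hB)ᗮ) : ∃ x, ana f B hB x = v := by
  have h1 : (ker hB)ᗮ = (LinearMap.range (ana f B hB : H →ₗ[ℂ] l2 I)).topologicalClosure := by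
    have h2 := (syn hB).orthogonal_ker
    have h3 : ContinuousLinearMap.adjoint (syn hB) = ana f B hB := by
      rw [syn, ContinuousLinearMap.adjoint_adjoint]
    rw [h3] at h2
    exact h2
  have h4 : IsClosed (LinearMap.range (ana f B hB : H →ₗ[ℂ] l2 I) : Set (l2 I)) := by
    have hanti : AntilipschitzWith (Real.toNNReal (√A)⁻¹) (ana f B hB) := by
      refine ContinuousLinearMap.antilipschitz_of_bound _ fun x => ?_
      rw [Real.coe_toNNReal _ (by positivity)]
      have hs : 0 < √A := Real.sqrt_pos.2 hA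
      have h5 : √A * ‖x‖ ≤ ‖ana f B hB x‖ := by
        refine le_of_sq_le_sq ?_ (norm_nonneg _)
        rw [mul_pow, Real.sq_sqrt hA.le]
        exact hlow x
      rw [inv_mul_eq_div, le_div_iff₀ hs, mul_comm]
      exact h5
    have h6 := hanti.isClosed_range (ana f B hB).uniformContinuous
    rw [LinearMap.coe_range]
    exact h6
  rw [h1, h4.submodule_topologicalClosure_eq] at hv
  exact hv

/-- If the kernel is trivial, then the frame is a Riesz basis (lower Riesz bound). -/
lemma riesz_of_ker {A : ℝ} (hA : 0 < A) (hlow : ∀ x, A * ‖x‖ ^ 2 ≤ ‖ana f B hB x‖ ^ 2)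
    (hk : ker hB = ⊥) (t : Finset I) (a : I → ℂ) :
    A * ∑ k ∈ t, ‖a k‖ ^ 2 ≤ ‖∑ k ∈ t, a k • f k‖ ^ 2 := by
  set c : l2 I := ∑ k ∈ t, a k • dl k with hc
  have hck : ∀ k, c k = if k ∈ t then a k else 0 := by
    intro k
    rw [← inner_dl, hc, inner_sum]
    simp only [inner_smul_right, inner_dl, dl_apply, mul_ite, mul_one, mul_zero]
    rw [Finset.sum_ite_eq]
  have hcn : ‖c‖ ^ 2 = ∑ k ∈ t, ‖a k‖ ^ 2 := by
    rw [norm_sq_l2, tsum_eq_sum (s := t)]
    · exact Finset.sum_congr rfl fun k hk => by rw [hck, if_pos hk]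
    · intro k hk
      rw [hck, if_neg hk]; simp
  have hsyn : syn hB c = ∑ k ∈ t, a k • f k := by
    rw [hc, map_sum]
    exact Finset.sum_congr rfl fun k _ => by rw [map_smul, syn_dl]
  obtain ⟨x, hx⟩ := exists_ana hB hA hlow c (by rw [hk, Submodule.bot_orthogonal_eq_top]; trivial)
  have h1 : ‖c‖ ^ 2 ≤ ‖syn hB c‖ * ‖x‖ := by
    have h2 : inner ℂ (syn hB c) x = ((‖c‖ ^ 2 : ℝ) : ℂ) := by
      rw [syn_inner, hx, inner_self_eq_norm_sq_to_K]
      simp
    have h3 := norm_inner_le_norm (𝕜 := ℂ) (syn hB c) x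
    rw [h2, Complex.norm_real, Real.norm_of_nonneg (by positivity)] at h3
    exact h3
  have h4 := hlow x
  rw [hx] at h4
  rw [← hsyn, ← hcn]
  rcases (norm_nonneg c).lt_or_eq with h5 | h5
  · have h6 : (‖c‖ ^ 2) ^ 2 ≤ ‖syn hB c‖ ^ 2 * ‖x‖ ^ 2 := by
      rw [← mul_pow]; exact pow_le_pow_left₀ (by positivity) h1 2
    have h7 : A * (‖c‖ ^ 2) ^ 2 ≤ ‖syn hB c‖ ^ 2 * ‖c‖ ^ 2 := by
      calc A * (‖c‖ ^ 2) ^ 2 ≤ A * (‖syn hB c‖ ^ 2 * ‖x‖ ^ 2) := by gcongr
        _ = ‖syn hB c‖ ^ 2 * (A * ‖x‖ ^ 2) := by ring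
        _ ≤ _ := by gcongr
    have h8 : (A * ‖c‖ ^ 2) * ‖c‖ ^ 2 ≤ ‖syn hB c‖ ^ 2 * ‖c‖ ^ 2 := by linarith
    exact le_of_mul_le_mul_right h8 (by positivity)
  · rw [← h5]
    simp only [ne_eq, OfNat.ofNat_ne_zero, not_false_eq_true, zero_pow, mul_zero]
    positivity

end frame

end Pool.Agent.Q179.Gab
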