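import Mathlib
import Pool.Agent.Q179.Gab.Core

/-!
# No bounded orbit representation of an overcomplete frame of coherent states over `ℤ²`
-/

set_option autoImplicit false
set_option linter.unusedSectionVars false

open Filter Topology

namespace Pool.Agent.Q179.Gab

open Pool.Agent.Q179.BLT

/-! ### Combinatorics -/

/-- The determinant. -/
def det2 (x y : ℤ × ℤ) : ℤ := x.1 * y.2 - x.2 * y.1

lemma comb (e : ℤ ≃ ℤ × ℤ) (F : Set ℤ) (hF : F.Finite) (hne : F.Nonempty) (h0 : (0:ℤ) ∉ F)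
    (N : Set (ℤ × ℤ)) (h : ∀ j k : ℤ, j ≠ k → (j - k ∈ F ↔ e j - e k ∈ N)) : False := by
  obtain ⟨d0, hd0⟩ := hne
  have hd00 : d0 ≠ 0 := fun h => h0 (h ▸ hd0)
  -- a bound for `F`
  obtain ⟨M, hM⟩ : ∃ M : ℕ, ∀ d ∈ F, |d| ≤ M := by
    obtain ⟨M, hM⟩ := (hF.image fun d : ℤ => |d|).bddAbove
    exact ⟨M.toNat, fun d hd => (hM ⟨d, hd, rfl⟩).trans (Int.self_le_toNat M)⟩
  -- two independent vectors
  obtain ⟨v, hv, w, hw, hvw⟩ : ∃ v ∈ N, ∃ w ∈ N, det2 v w ≠ 0 := by
    by_contra hcon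
    push Not at hcon
    set v := e d0 - e 0 with hv
    have hvN : v ∈ N := (h d0 0 hd00).1 (by simpa using hd0)
    have hv0 : v ≠ 0 := by
      intro h1
      exact hd00 (e.injective (sub_eq_zero.1 h1))
    have hstep : ∀ k : ℤ, det2 v (e (k + d0)) = det2 v (e k) := by
      intro k
      have h1 : e (k + d0) - e k ∈ N := (h (k + d0) k (by omega)).1 (by simpa using hd0)
      have h2 := hcon v hvN _ h1
      simp only [det2, Prod.fst_sub, Prod.snd_sub] at h2 ⊢
      linarith
    have hper : Function.Periodic (fun k : ℤ => det2 v (e k)) d0 := hstep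
    have hfin : (Set.range fun k : ℤ => det2 v (e k)).Finite := by
      refine ((Set.finite_Icc (0:ℤ) (|d0|)).image fun k : ℤ => det2 v (e k)).subset ?_
      rintro _ ⟨k, rfl⟩
      refine ⟨k % d0, ⟨Int.emod_nonneg _ hd00, (Int.emod_lt_abs k hd00).le⟩, ?_⟩
      have h3 : k = k % d0 + (k / d0) * d0 := by
        have := Int.emod_add_mul_ediv k d0; linarith
      have h4 := (hper.int_mul (k / d0)) (k % d0)
      simp only at h4 ⊢
      rw [← h4]
      congr 2
      push_cast
      linarith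
    -- but the values are unbounded
    have hsurj : (Set.range fun m : ℕ => (m : ℤ) * (v.1 ^ 2 + v.2 ^ 2)) ⊆
        Set.range fun k : ℤ => det2 v (e k) := by
      rintro _ ⟨m, rfl⟩
      refine ⟨e.symm (-(m * v.2), m * v.1), ?_⟩
      simp only [Equiv.apply_symm_apply, det2]
      ring
    have hinf : (Set.range fun m : ℕ => (m : ℤ) * (v.1 ^ 2 + v.2 ^ 2)).Infinite := by
      apply Set.infinite_range_of_injective
      intro a b hab
      have hpos : v.1 ^ 2 + v.2 ^ 2 ≠ 0 := by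
        intro h5
        apply hv0
        have h6 : v.1 = 0 := by nlinarith [sq_nonneg v.1, sq_nonneg v.2]
        have h7 : v.2 = 0 := by nlinarith [sq_nonneg v.1, sq_nonneg v.2]
        exact Prod.ext h6 h7
      have := mul_right_cancel₀ hpos hab
      exact_mod_cast this
    exact hinf (hfin.subset hsurj)
  -- counting
  have hv0 : v ≠ 0 := by rintro rfl; exact hvw (by simp [det2])
  have hw0 : w ≠ 0 := by rintro rfl; exact hvw (by simp [det2])
  have hmove : ∀ x ∈ N, x ≠ 0 → ∀ y : ℤ × ℤ, |e.symm (y + x) - e.symm y| ≤ M := by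
    intro x hx hx0 y
    apply hM
    refine (h _ _ ?_).2 ?_
    · intro h1
      have := e.symm.injective h1
      exact hx0 (by simpa using this)
    · simpa using hx
  set G : ℕ → ℕ → ℤ := fun a b => e.symm ((a : ℤ) • v + (b : ℤ) • w) with hG
  have hGb : ∀ a b : ℕ, |G a b - G 0 0| ≤ (a + b) * M := by
    intro a b
    induction b with
    | zero =>
      induction a with
      | zero => simp
      | succ a ih =>
        have h1 := hmove v hv hv0 ((a : ℤ) • v + ((0 : ℕ) : ℤ) • w)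
        have h2 : (a : ℤ) • v + ((0 : ℕ) : ℤ) • w + v = ((a + 1 : ℕ) : ℤ) • v + ((0 : ℕ) : ℤ) • w := by
          push_cast
          module
        rw [h2] at h1
        have h3 : G (a + 1) 0 - G 0 0 = (G (a + 1) 0 - G a 0) + (G a 0 - G 0 0) := by ring
        rw [h3]
        refine (abs_add_le _ _).trans ?_
        push_cast at ih ⊢
        have h4 : |G (a + 1) 0 - G a 0| ≤ M := h1
        linarith
    | succ b ih =>
      have h1 := hmove w hw hw0 ((a : ℤ) • v + (b : ℤ) • w)
      have h2 : (a : ℤ) • v + (b : ℤ) • w + w = (a : ℤ) • v + ((b + 1 : ℕ) : ℤ) • w := by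
        push_cast
        module
      rw [h2] at h1
      have h3 : G a (b + 1) - G 0 0 = (G a (b + 1) - G a b) + (G a b - G 0 0) := by ring
      rw [h3]
      refine (abs_add_le _ _).trans ?_
      push_cast at ih ⊢
      have h4 : |G a (b + 1) - G a b| ≤ M := h1
      linarith
  have hGi : ∀ a b a' b' : ℕ, G a b = G a' b' → a = a' ∧ b = b' := by
    intro a b a' b' hab
    have h1 := e.symm.injective hab
    have h2 := congrArg Prod.fst h1
    have h3 := congrArg Prod.snd h1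
    simp only [Prod.fst_add, Prod.snd_add, Prod.smul_fst, Prod.smul_snd, smul_eq_mul] at h2 h3
    have h4 : ((a : ℤ) - a') * det2 v w = 0 := by
      simp only [det2]
      linear_combination w.2 * h2 - w.1 * h3
    have h5 : ((b : ℤ) - b') * det2 v w = 0 := by
      simp only [det2]
      linear_combination v.1 * h3 - v.2 * h2
    have h6 := (mul_eq_zero.1 h4).resolve_right hvw
    have h7 := (mul_eq_zero.1 h5).resolve_right hvw
    constructor <;> omega
  set n : ℕ := 4 * M + 2 with hn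
  have hcard : (Finset.range n ×ˢ Finset.range n).card ≤
      (Finset.Icc (G 0 0 - 2 * n * M) (G 0 0 + 2 * n * M)).card := by
    refine Finset.card_le_card_of_injOn (fun p => G p.1 p.2) ?_ ?_
    · rintro ⟨a, b⟩ hp
      rw [Finset.mem_coe, Finset.mem_product, Finset.mem_range, Finset.mem_range] at hp
      have h1 := hGb a b
      have h2 : ((a : ℤ) + b) * M ≤ 2 * n * M := by
        have : (a : ℤ) + b ≤ 2 * n := by
          have := hp.1
          have := hp.2
          push_cast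
          omega
        gcongr
      have h3 := abs_le.1 (h1.trans h2)
      rw [Finset.mem_coe, Finset.mem_Icc]
      constructor <;> simp only <;> linarith [h3.1, h3.2]
    · rintro ⟨a, b⟩ _ ⟨a', b'⟩ _ hab
      obtain ⟨h1, h2⟩ := hGi a b a' b' hab
      rw [h1, h2]
  rw [Finset.card_product, Finset.card_range, Int.card_Icc] at hcard
  have h1 : G 0 0 + 2 * n * M + 1 - (G 0 0 - 2 * n * M) = 4 * n * M + 1 := by ring
  rw [h1] at hcard
  have h2 : ((4 : ℤ) * n * M + 1).toNat = 4 * n * M + 1 := by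
    have : ((4 : ℤ) * n * M + 1) = ((4 * n * M + 1 : ℕ) : ℤ) := by push_cast; ring
    rw [this, Int.toNat_natCast]
  rw [h2, hn] at hcard
  nlinarith

/-! ### Coherent states -/

section coh

variable {H : Type*} [NormedAddCommGroup H] [InnerProductSpace ℂ H] [CompleteSpace H]
variable {V : Type*} [AddCommGroup V] [Module ℝ V]
variable {β : V →ₗ[ℝ] V →ₗ[ℝ] ℝ} {P : V → H →ₗᵢ[ℂ] H}
variable {I : Type*} [DecidableEq I]

/-- The key symmetry of the projected unit vectors. -/
lemma exists_window (hr : IsRep β P) (L : ℤ × ℤ →+ V) (g : H) (e : I ≃ ℤ × ℤ) {A B : ℝ}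
    (hB : BB (fun k => P (L (e k)) g) B) (hA : 0 < A)
    (hlow : ∀ x, A * ‖x‖ ^ 2 ≤ ‖ana _ B hB x‖ ^ 2) :
    ∃ h : H, (∀ k, u hB k k = 1 - inner ℂ g h) ∧
      ∀ k j, j ≠ k → ‖u hB k j‖ = ‖inner ℂ (P (L (e j - e k)) g) h‖ := by
  set f : I → H := fun k => P (L (e k)) g with hf
  set k0 : I := e.symm 0 with hk0
  have hfk0 : f k0 = g := by simp [hf, hk0, hr.zero]
  obtain ⟨h, hh⟩ := exists_ana hB hA hlow (dl k0 - u hB k0)
    ((ker hB).sub_starProjection_mem_orthogonal _)
  have hstar : ∀ y, inner ℂ (ana f B hB h) (ana f B hB y) = inner ℂ g y := by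
    intro y
    rw [hh, inner_sub_left, inner_dl, ← syn_inner, (mem_ker hB _).1 (u_mem hB k0), inner_zero_left,
      sub_zero]
    change inner ℂ (f k0) y = _
    rw [hfk0]
  -- the two coefficient identities
  have c1 : ∀ (k j : I) (x : H), inner ℂ (f j) x = E (-(β (L (e k)) (L (e j)))) *
      inner ℂ (P (L (e j - e k)) g) (P (-(L (e k))) x) := by
    intro k j x
    rw [← (P (-(L (e k)))).inner_map_map (f j) x, hf, hr.comp, inner_smul_left, conj_E]
    congr 2
    · simp
    · rw [map_sub]; abel_nf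
  have c2 : ∀ (k j : I), inner ℂ (f j) (P (L (e k)) h) = E (-(β (L (e k)) (L (e j)))) *
      (E (β (L (e k)) (L (e k))) * inner ℂ (P (L (e j - e k)) g) h) := by
    intro k j
    rw [c1 k j, hr.comp, neg_add_cancel, hr.zero, inner_smul_right]
    congr 3
    simp
  have hu : ∀ k, u hB k = dl k - ana f B hB (P (L (e k)) h) := by
    intro k
    refine Submodule.eq_starProjection_of_mem_orthogonal ?_ ?_
    · rw [mem_ker, map_sub, sub_eq_zero, syn_dl]
      refine ext_inner_right ℂ fun x => ?_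
      rw [syn_inner]
      set z := L (e k) with hz
      set τ : I ≃ I := (e.trans (Equiv.subRight (e k))).trans e.symm with hτ
      have hτe : ∀ j, e (τ j) = e j - e k := by
        intro j; simp [hτ, Equiv.subRight]
      have h1 : inner ℂ (ana f B hB (P z h)) (ana f B hB x) =
          E (-(β z z)) * inner ℂ (ana f B hB h) (ana f B hB (P (-z) x)) := by
        rw [lp.inner_eq_tsum, lp.inner_eq_tsum, ← τ.tsum_eq (fun j =>
          inner ℂ (ana f B hB h j) (ana f B hB (P (-z) x) j)), ← tsum_mul_left]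
        refine tsum_congr fun j => ?_
        simp only [ana_apply, RCLike.inner_apply]
        rw [c2 k j, c1 k j x]
        simp only [hf, hτe, map_mul, conj_E, neg_neg, ← hz]
        have h2 := E_mul_neg (β z (L (e j)))
        linear_combination (E (-(β z z)) * inner ℂ (P (L (e j - e k)) g) (P (-z) x) *
          (starRingEnd ℂ) (inner ℂ (P (L (e j - e k)) g) h)) * h2
      rw [h1, hstar]
      change inner ℂ (P z g) x = _
      rw [← (P (-z)).inner_map_map (P z g) x, hr.comp, neg_add_cancel, hr.zero, inner_smul_left,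
        conj_E]
      congr 2
      simp
    · rw [sub_sub_cancel, Submodule.mem_orthogonal]
      intro v hv
      rw [← syn_inner, (mem_ker hB _).1 hv, inner_zero_left]
  refine ⟨h, fun k => ?_, fun k j hjk => ?_⟩
  · rw [hu k, lp.coeFn_sub, Pi.sub_apply, dl_apply, if_pos rfl, ana_apply]
    change 1 - inner ℂ (P (L (e k)) g) (P (L (e k)) h) = _
    rw [(P (L (e k))).inner_map_map]
  · rw [hu k, lp.coeFn_sub, Pi.sub_apply, dl_apply, if_neg hjk, zero_sub, norm_neg, ana_apply,
      c2 k j, norm_mul, norm_mul, norm_E, norm_E, one_mul, one_mul]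

lemma u_norm_const (hr : IsRep β P) (L : ℤ × ℤ →+ V) (g : H) (e : I ≃ ℤ × ℤ) {A B : ℝ}
    (hB : BB (fun k => P (L (e k)) g) B) (hA : 0 < A)
    (hlow : ∀ x, A * ‖x‖ ^ 2 ≤ ‖ana _ B hB x‖ ^ 2) :
    ∃ κ : ℝ, ∀ k, ‖u hB k‖ ^ 2 = κ := by
  obtain ⟨h, h1, -⟩ := exists_window hr L g e hB hA hlow
  refine ⟨(1 - inner ℂ g h : ℂ).re, fun k => ?_⟩
  have h2 := u_norm hB k
  rw [h1 k] at h2
  rw [← h2, Complex.ofReal_re]

/-- The case of the index set `ℕ`. -/
theorem no_nat (hr : IsRep β P) (L : ℤ × ℤ →+ V) (g : H) (e : ℕ ≃ ℤ × ℤ) {A B : ℝ}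
    (hB : BB (fun k => P (L (e k)) g) B) (hA : 0 < A)
    (hlow : ∀ x, A * ‖x‖ ^ 2 ≤ ‖ana _ B hB x‖ ^ 2) (hg : g ≠ 0) (C : ℝ)
    (hT : ∀ (t : Finset ℕ) (a : ℕ → ℂ),
      ‖∑ k ∈ t, a k • P (L (e (k + 1))) g‖ ≤ C * ‖∑ k ∈ t, a k • P (L (e k)) g‖) :
    ker hB = ⊥ := by
  obtain ⟨κ, hκ⟩ := u_norm_const hr L g e hB hA hlow
  have hs : Function.Injective fun k : ℕ => k + 1 := fun a b h => by simpa using h
  have hR : ∀ c ∈ ker hB, R _ hs c ∈ ker hB := fun c hc => shift_ker hB _ hs C hT c hc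
  have h1 : ∀ k, R _ hs (u hB k) = u hB (k + 1) := R_u hB _ hs hR κ hκ
  have h2 : u hB 0 = 0 := by
    refine u_single hB 0 ?_ fun j hj => ?_
    · intro h0
      apply hg
      have : ‖P (L (e 0)) g‖ = 0 := by rw [show P (L (e 0)) g = 0 from h0, norm_zero]
      rwa [LinearIsometry.norm_map, norm_eq_zero] at this
    · obtain ⟨k, rfl⟩ := Nat.exists_eq_succ_of_ne_zero hj
      rw [u_symm, Nat.succ_eq_add_one, ← h1 k, R_apply_zero _ hs _ 0 (fun k => by omega), map_zero]
  refine ker_eq_bot_of hB fun k => ?_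
  have h3 := hκ 0
  rw [h2, norm_zero] at h3
  have h4 := hκ k
  rw [← h3] at h4
  have h5 : ‖u hB k‖ ^ 2 = 0 := by rw [h4]; norm_num
  exact norm_eq_zero.1 (pow_eq_zero_iff two_ne_zero |>.1 h5)

/-- The case of the index set `ℤ`. -/
theorem no_int (hr : IsRep β P) (L : ℤ × ℤ →+ V) (g : H) (e : ℤ ≃ ℤ × ℤ) {A B : ℝ}
    (hB : BB (fun k => P (L (e k)) g) B) (hA : 0 < A)
    (hlow : ∀ x, A * ‖x‖ ^ 2 ≤ ‖ana _ B hB x‖ ^ 2) (hg : g ≠ 0) (C : ℝ)
    (hT : ∀ (t : Finset ℤ) (a : ℤ → ℂ),
      ‖∑ k ∈ t, a k • P (L (e (k + 1))) g‖ ≤ C * ‖∑ k ∈ t, a k • P (L (e k)) g‖) :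
    ker hB = ⊥ := by
  obtain ⟨κ, hκ⟩ := u_norm_const hr L g e hB hA hlow
  have hs : Function.Injective fun k : ℤ => k + 1 := fun a b h => by simpa using h
  have hR : ∀ c ∈ ker hB, R _ hs c ∈ ker hB := fun c hc => shift_ker hB _ hs C hT c hc
  have h1 : ∀ k, R _ hs (u hB k) = u hB (k + 1) := R_u hB _ hs hR κ hκ
  have h2 : ∀ k j : ℤ, u hB (k + 1) (j + 1) = u hB k j := by
    intro k j
    rw [← h1 k]
    exact R_apply _ hs _ _
  have h3 : ∀ (n : ℤ) (k j : ℤ), u hB (k + n) (j + n) = u hB k j := by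
    intro n
    induction n using Int.induction_on with
    | zero => intro k j; simp
    | succ n ih =>
      intro k j
      rw [← add_assoc, ← add_assoc, h2, ih]
    | pred n ih =>
      intro k j
      have a1 : u hB (k + (-(n : ℤ) - 1) + 1) (j + (-(n : ℤ) - 1) + 1) =
        u hB (k + (-(n : ℤ) - 1)) (j + (-(n : ℤ) - 1)) := h2 _ _
      have e1 : k + (-(n : ℤ) - 1) + 1 = k + -(n : ℤ) := by ring
      have e2 : j + (-(n : ℤ) - 1) + 1 = j + -(n : ℤ) := by ring
      rw [← a1, e1, e2]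
      exact ih k j
  have h4 : ∀ k j : ℤ, u hB k j = u hB 0 (j - k) := by
    intro k j
    have := h3 k 0 (j - k)
    rw [zero_add, sub_add_cancel] at this
    exact this
  by_contra hker
  -- some nonzero Fourier coefficient
  obtain ⟨d0, hd0, hpd0⟩ : ∃ d0 : ℤ, d0 ≠ 0 ∧ u hB 0 d0 ≠ 0 := by
    by_contra hcon
    push Not at hcon
    have h5 : u hB 0 = 0 := by
      refine u_single hB 0 ?_ fun j hj => hcon j hj
      intro h0
      apply hg
      have : ‖P (L (e 0)) g‖ = 0 := by rw [show P (L (e 0)) g = 0 from h0, norm_zero]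
      rwa [LinearIsometry.norm_map, norm_eq_zero] at this
    apply hker
    refine ker_eq_bot_of hB fun k => ?_
    have h3 := hκ 0
    rw [h5, norm_zero] at h3
    have h4 := hκ k
    rw [← h3] at h4
    have h5 : ‖u hB k‖ ^ 2 = 0 := by rw [h4]; norm_num
    exact norm_eq_zero.1 (pow_eq_zero_iff two_ne_zero |>.1 h5)
  obtain ⟨h, -, hw⟩ := exists_window hr L g e hB hA hlow
  set t : ℝ := ‖u hB 0 d0‖ with ht
  have ht0 : 0 < t := norm_pos_iff.2 hpd0
  refine comb e {d | d ≠ 0 ∧ t ≤ ‖u hB 0 d‖} ?_ ⟨d0, hd0, le_rfl⟩ (fun h => h.1 rfl)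
    {ν | ν ≠ 0 ∧ t ≤ ‖inner ℂ (P (L ν) g) h‖} ?_
  · have h5 := (summable_l2 (u hB 0)).tendsto_cofinite_zero
    have h6 := h5.eventually (gt_mem_nhds (show 0 < t ^ 2 by positivity))
    rw [Filter.eventually_cofinite] at h6
    refine h6.subset ?_
    rintro d ⟨-, hd⟩
    rw [Set.mem_ofPred_eq, not_lt]
    gcongr
  · intro j k hjk
    have h7 := hw k j hjk
    rw [h4 k j] at h7
    simp only [Set.mem_ofPred_eq]
    rw [h7]
    constructor
    · rintro ⟨-, h8⟩
      exact ⟨fun h9 => hjk (e.injective (sub_eq_zero.1 h9)), h8⟩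
    · rintro ⟨-, h8⟩
      exact ⟨sub_ne_zero.2 hjk, h8⟩

end coh

end Pool.Agent.Q179.Gab
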